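import Pool.Agent.H487.GP.Stm3

set_option autoImplicit false

/-!
# Project GP: `S_LOWN`, the lower bound for the number of zeros
-/

open Finset Complex Filter Topology Metric Set MeasureTheory

namespace Pool.Agent.H215.GP

open Pool.Agent.Helper242.KK (FT Ph)
open Pool.Agent.H477.Jen
open Pool.Agent.H477.E
open Pool.Agent.H487.GA
open Pool.Agent.H487.ED (Ev)
open Pool.Agent.H487.GP

theorem lown_proof (hGAPL : S_GAPL) (hLGV : S_LGV) (hGDX : S_GDX) (hSPC : Pool.Agent.H487.ED.S_SPC) : S_LOWN := by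
  obtain ⟨e, he⟩ : ∃ e : ℝ, e = 1 / 100 := ⟨_, rfl⟩
  have he0 : 0 < e := by rw [he]; norm_num
  obtain ⟨k1, δ1, T1, hδ1, hT1, hgood⟩ := good hGAPL hLGV hGDX hSPC he0 (by rw [he]; norm_num)
  obtain ⟨T5, hT5⟩ : ∃ T5 : ℝ, ∀ T : ℝ, T5 ≤ T → 100 ≤ Real.log T :=
    eventually_atTop.1 (Real.tendsto_log_atTop.eventually_ge_atTop _)
  refine ⟨k1, δ1, max T1 (max T5 200), hδ1, ?_⟩
  intro T hT k hk hkδ
  simp only [max_le_iff] at hT
  obtain ⟨hT1', hT5', hT200⟩ := hT
  have hT0 : 0 < T := by linarith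
  have heT : 2 ≤ e * T := by rw [he]; linarith
  have hL := hT5 T hT5'
  obtain ⟨l1, l2⟩ := lamT_log hT0
  have hlam : 0 < lamT T := by linarith
  have hpi := Real.pi_pos
  have hpi4 := Real.pi_lt_d2
  obtain ⟨B, hB, hBv, hg⟩ := hgood T hT1' k hk hkδ
  obtain ⟨s2, hs2⟩ : ∃ s2 : ℝ, s2 = (1 + e) * (Real.pi / lamT T) := ⟨_, rfl⟩
  have hs20 : 0 < s2 := by rw [hs2]; positivity
  have hs22 : s2 * Real.log T ≤ 8 := by
    rw [hs2, mul_div_assoc', div_mul_eq_mul_div, div_le_iff₀ hlam]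
    have h1 : (1 + e) * Real.pi ≤ 3.2 := by rw [he]; linarith
    have h2 : (1 + e) * Real.pi * Real.log T ≤ 3.2 * Real.log T := mul_le_mul_of_nonneg_right h1 (by linarith)
    linarith
  have hs21 : s2 ≤ 1 / 2 := by
    by_contra hcon
    have h1 : 1 / 2 * 100 ≤ s2 * Real.log T := mul_le_mul (not_le.1 hcon).le hL (by norm_num) hs20.le
    linarith
  obtain ⟨N, hN⟩ : ∃ N : ℝ, N = ∑ w ∈ ZD k (fun _ => True) T, ordk k w := ⟨_, rfl⟩
  have hlow : T * (1 - 2 * e) ≤ s2 * N := by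
    have h1 : volume (Icc (T + 1) (2 * T) \ B) ≤ ENNReal.ofReal (s2 * (reZ k (fun _ => True) T).card) := by
      apply cover hs20.le
      rintro t ⟨⟨ht1, ht2⟩, htB⟩
      obtain ⟨x, hx1, hx2, hx3⟩ := (hg t (by linarith) ht2 htB).2
      rw [← hs2] at hx1
      refine ⟨x, ?_, hx2, by linarith⟩
      unfold reZ
      rw [Finset.mem_image]
      refine ⟨(x : ℂ), (mem_ZD hT0.le).2 ⟨hx3, ?_, ?_, trivial⟩, by simp⟩
      · simp only [ofReal_re]; linarith
      · simp only [ofReal_re]; linarith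
    have h2 : volume (Icc (T + 1) (2 * T)) ≤ volume (Icc (T + 1) (2 * T) \ B) + volume B := by
      refine (measure_mono ?_).trans (measure_union_le _ _)
      intro t ht
      by_cases htB : t ∈ B
      · exact Or.inr htB
      · exact Or.inl ⟨ht, htB⟩
    have h3 := h2.trans (add_le_add h1 hBv)
    rw [Real.volume_Icc, ← ENNReal.ofReal_add (by positivity) (by positivity), ENNReal.ofReal_le_ofReal_iff (by positivity)] at h3
    have h4 : ((reZ k (fun _ => True) T).card : ℝ) ≤ N := by rw [hN]; exact card_le_sum hT0.le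
    have h5 : s2 * (reZ k (fun _ => True) T).card ≤ s2 * N := mul_le_mul_of_nonneg_left h4 hs20.le
    linarith
  rw [← hN]
  have h6 : 0 ≤ T * (1 - 2 * e) := mul_nonneg hT0.le (by rw [he]; norm_num)
  have h7 : T * (1 - 2 * e) * Real.log T ≤ s2 * N * Real.log T := mul_le_mul_of_nonneg_right hlow (by linarith)
  have hN0 : 0 ≤ N := by
    rw [hN]
    exact Finset.sum_nonneg fun w _ => ordk_nonneg k w
  have h8 : s2 * N * Real.log T ≤ 8 * N := by
    have h9 := mul_le_mul_of_nonneg_right hs22 hN0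
    linarith [show s2 * N * Real.log T = s2 * Real.log T * N by ring]
  have h10 : 0 ≤ T * Real.log T := mul_nonneg hT0.le (by linarith)
  have h11 : T * (1 - 2 * e) * Real.log T = 49 / 50 * (T * Real.log T) := by rw [he]; ring
  linarith

end Pool.Agent.H215.GP
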